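import Pool.Agent.helper91.SI.Spec

/-!
# Row DEG: the i-graph has maximum degree at most 2
-/

set_option autoImplicit false

namespace Pool.Agent.helper91.SI

open Pool.Agent.helper20.IG (IsIndepDom IsISet iGraph)

theorem DEG_ne {V : Type} [DecidableEq V] (G : SimpleGraph V)
    (hSAM : SAM_stmt) (hT : NoTri G) (X A B : {S : Finset V // IsISet G S}) (hne : A ≠ B)
    (s v t w : V) (h1 : Slide G X.1 s v) (h2 : Slide G X.1 t w)
    (e1 : A.1 = insert v (X.1.erase s)) (e2 : B.1 = insert w (X.1.erase t)) : s ≠ t := by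
  intro hst
  subst hst
  have hvw : v = w := hSAM V G X.1 s v w hT h1 h2
  subst hvw
  exact hne (Subtype.ext (e1.trans e2.symm))

theorem DEG (hIAD : IAD_stmt) (hSAM : SAM_stmt) (hCFL : CFL_stmt) (hTHR : THR_stmt) : DEG_stmt := by
  intro V _ G hT h6 h7 h4 h
  obtain ⟨X, A, B, C, hA, hB, hC, hAB, hAC, hBC⟩ := h
  obtain ⟨s1, v1, q1, e1⟩ := (hIAD V G X A).1 hA
  obtain ⟨s2, v2, q2, e2⟩ := (hIAD V G X B).1 hB
  obtain ⟨s3, v3, q3, e3⟩ := (hIAD V G X C).1 hC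
  have n12 : s1 ≠ s2 := DEG_ne G hSAM hT X A B hAB s1 v1 s2 v2 q1 q2 e1 e2
  have n13 : s1 ≠ s3 := DEG_ne G hSAM hT X A C hAC s1 v1 s3 v3 q1 q3 e1 e3
  have n23 : s2 ≠ s3 := DEG_ne G hSAM hT X B C hBC s2 v2 s3 v3 q2 q3 e2 e3
  exact hTHR V G X.1 s1 v1 s2 v2 s3 v3 hT h6 h7 q1 q2 q3 n12 n13 n23
    (hCFL V G X.1 s1 v1 s2 v2 hT h4 q1 q2 n12)
    (hCFL V G X.1 s1 v1 s3 v3 hT h4 q1 q3 n13)
    (hCFL V G X.1 s2 v2 s3 v3 hT h4 q2 q3 n23)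

end Pool.Agent.helper91.SI
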