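import Pool.Agent.helper91.SI.Spec2

/-!
# Row SM2: cycles of length 3, 4, 6 are not isomorphic to a graph without such cycles
-/

set_option autoImplicit false

namespace Pool.Agent.helper91.SI

open Pool.Agent.helper20.IG (IsIndepDom IsISet iGraph)

theorem SM2_adj (hCYA : CYA_stmt) {V : Type} {G : SimpleGraph V} {n : ℕ} (hn : 3 ≤ n)
    (e : SimpleGraph.cycleGraph n ≃g G) (u v : Fin n)
    (h : (u.val + 1) % n = v.val ∨ (v.val + 1) % n = u.val) : G.Adj (e u) (e v) :=
  e.map_adj_iff.2 ((hCYA n hn u v).2 h)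

theorem SM2 (hCYA : CYA_stmt) : SM2_stmt := by
  intro V G n hT h4 h6 he
  obtain ⟨e⟩ := he
  refine ⟨?_, ?_, ?_⟩
  · intro hn
    subst hn
    exact hT (e 0) (e 1) (e 2) (SM2_adj hCYA (by norm_num) e 0 1 (by decide))
      (SM2_adj hCYA (by norm_num) e 1 2 (by decide)) (SM2_adj hCYA (by norm_num) e 0 2 (by decide))
  · intro hn
    subst hn
    exact h4 (e 0) (e 1) (e 2) (e 3) (SM2_adj hCYA (by norm_num) e 0 1 (by decide))
      (SM2_adj hCYA (by norm_num) e 1 2 (by decide)) (SM2_adj hCYA (by norm_num) e 2 3 (by decide))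
      (SM2_adj hCYA (by norm_num) e 3 0 (by decide))
      (fun h => absurd (e.injective h) (by decide)) (fun h => absurd (e.injective h) (by decide))
  · intro hn
    subst hn
    refine h6 (e 0) (e 1) (e 2) (e 3) (e 4) (e 5) ?_ (SM2_adj hCYA (by norm_num) e 0 1 (by decide))
      (SM2_adj hCYA (by norm_num) e 1 2 (by decide)) (SM2_adj hCYA (by norm_num) e 2 3 (by decide))
      (SM2_adj hCYA (by norm_num) e 3 4 (by decide)) (SM2_adj hCYA (by norm_num) e 4 5 (by decide))
      (SM2_adj hCYA (by norm_num) e 5 0 (by decide))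
    simp

end Pool.Agent.helper91.SI
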